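import Pool.Agent.Helper16.NP.Two

/-!
# Newton polygon criterion: half-idempotents and two commuting ideals
-/

namespace Pool.Agent.Helper16.NP

open LinearMap Polynomial Pool.Agent.Helper66.OTR

set_option linter.unusedSectionVars false

variable {K V : Type*} [Field K] [CharZero K] [IsAlgClosed K] [AddCommGroup V] [Module K V]
  [FiniteDimensional K V]
variable {ψ : LinearMap.BilinForm K V} {s I J : Submodule K (Module.End K V)}

/-- `s` is the sum of two commuting ideals -/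
structure Ide (s I J : Submodule K (Module.End K V)) : Prop where
  hI : I ≤ s
  hJ : J ≤ s
  hI' : ∀ X ∈ s, ∀ Y ∈ I, X * Y - Y * X ∈ I
  hJ' : ∀ X ∈ s, ∀ Y ∈ J, X * Y - Y * X ∈ J
  comm : ∀ X ∈ I, ∀ Y ∈ J, X * Y = Y * X
  sup : s ≤ I ⊔ J

namespace Ide

lemma symm (D : Ide s I J) : Ide s J I :=
  ⟨D.hJ, D.hI, D.hJ', D.hI', fun X hX Y hY => (D.comm Y hY X hX).symm, by
    rw [sup_comm]; exact D.sup⟩

lemma two (D : Ide s I J) (S : Setup ψ s) : Two s I J :=
  ⟨S.irred, D.sup, D.comm, fun _ hX => S.trace_eq_zero (D.hI hX),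
    fun _ hX => S.trace_eq_zero (D.hJ hX)⟩

lemma plus_mem (D : Ide s I J) {h X : Module.End K V} (hh : h * h = (4 : K)⁻¹ • 1) (hh' : h ∈ s)
    (hX : X ∈ I) : plus h X ∈ I := by
  rw [plus_eq hh]
  exact I.add_mem (I.smul_mem _ (D.hI' _ hh' _ hX)) (I.smul_mem _ (D.hI' _ hh' _ (D.hI' _ hh' _ hX)))

/-- if the positive part of `I` vanishes, so does the negative part -/
lemma plus_neg_zero (D : Ide s I J) (S : Setup ψ s) {h : Module.End K V}
    (hh : h * h = (4 : K)⁻¹ • 1) (hh' : h ∈ s) (h0 : ∀ X ∈ I, plus h X = 0) :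
    ∀ X ∈ I, plus (-h) X = 0 := by
  intro X hX
  have hx : plus (-h) X ∈ I := D.plus_mem (half_neg hh) (s.neg_mem hh') hX
  set x := plus (-h) X with hxd
  set P := (2 : K)⁻¹ • (1 : Module.End K V) + h with hP
  set Q := (2 : K)⁻¹ • (1 : Module.End K V) - h with hQ
  have hPP : P * P = P := half_PP hh
  have hQQ : Q * Q = Q := half_QQ hh
  have hPQ : P * Q = 0 := half_PQ hh
  have hx1 : x = Q * X * P := by rw [hxd, plus_neg]
  have hQx : Q * x = x := by rw [hx1, ← mul_assoc, ← mul_assoc, hQQ]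
  have hxP : x * P = x := by rw [hx1, mul_assoc, hPP]
  have hxx : x * x = 0 := by
    have : x * x = (x * P) * (Q * x) := by rw [hQx, hxP]
    rw [this]
    have : (x * P) * (Q * x) = x * (P * Q) * x := by noncomm_ring
    rw [this, hPQ, mul_zero, zero_mul]
  obtain ⟨F, hF, hxF⟩ := S.jm (D.hI hx) hxx
  obtain ⟨F₁, h1, F₂, h2, rfl⟩ := Submodule.mem_sup.1 (D.sup hF)
  have e1 : x * F₂ * x = 0 := by
    rw [D.comm x hx F₂ h2, mul_assoc, hxx, mul_zero]
  rw [mul_add, add_mul, e1, add_zero] at hxF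
  have e2 : P * F₁ * Q = 0 := h0 F₁ h1
  have e3 : x * F₁ * x = x * (P * F₁ * Q) * x := by
    have : x * (P * F₁ * Q) * x = (x * P) * F₁ * (Q * x) := by noncomm_ring
    rw [this, hQx, hxP]
  rw [← hxF, e3, e2, mul_zero, zero_mul]

/-- a half whose positive part on `I` vanishes lies in `J` -/
lemma mem_right (D : Ide s I J) (S : Setup ψ s) {h : Module.End K V}
    (hh : h * h = (4 : K)⁻¹ • 1) (hh' : h ∈ s) (h0 : ∀ X ∈ I, plus h X = 0) : h ∈ J := by
  have h1 := D.plus_neg_zero S hh hh' h0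
  have hc : ∀ X ∈ I, h * X = X * h := fun X hX => comm_of_plus (h0 X hX) (h1 X hX)
  obtain ⟨a, ha, b, hb, rfl⟩ := Submodule.mem_sup.1 (D.sup hh')
  have h2 : ∀ X ∈ I, a * X = X * a := by
    intro X hX
    have := hc X hX
    rw [add_mul, mul_add, D.comm X hX b hb] at this
    exact add_right_cancel this
  have h3 : a = 0 := schur_zero S.irred ((D.two S).central h2 (fun X hX => D.comm a ha X hX))
    (S.trace_eq_zero (D.hI ha))
  rw [h3, zero_add]
  exact hb

/-- every half lies in one of the two ideals -/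
lemma half_mem (D : Ide s I J) (S : Setup ψ s) {h : Module.End K V}
    (hh : h * h = (4 : K)⁻¹ • 1) (hh' : h ∈ s) : h ∈ I ∨ h ∈ J := by
  by_cases h1 : ∀ X ∈ I, plus h X = 0
  · exact Or.inr (D.mem_right S hh hh' h1)
  by_cases h2 : ∀ X ∈ J, plus h X = 0
  · exact Or.inl (D.symm.mem_right S hh hh' h2)
  exfalso
  push Not at h1 h2
  obtain ⟨X, hX, hX0⟩ := h1
  obtain ⟨Y, hY, hY0⟩ := h2
  have e : plus h X * plus h Y = 0 := by
    unfold plus
    have : ((2 : K)⁻¹ • (1 : Module.End K V) + h) * X * ((2 : K)⁻¹ • 1 - h) *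
        (((2 : K)⁻¹ • 1 + h) * Y * ((2 : K)⁻¹ • 1 - h)) =
        ((2 : K)⁻¹ • (1 : Module.End K V) + h) * X * (((2 : K)⁻¹ • 1 - h) *
        ((2 : K)⁻¹ • 1 + h)) * (Y * ((2 : K)⁻¹ • 1 - h)) := by
      simp only [mul_assoc]
    rw [this, half_QP hh, mul_zero, zero_mul]
  rcases (D.two S).ann (Two.mem_I (D.plus_mem hh hh' hX))
    (Two.mem_I (D.symm.plus_mem hh hh' hY)) e with h3 | h3
  · exact hX0 h3
  · exact hY0 h3

/-- there is a half in `J` -/
lemma exists_half (D : Ide s I J) (S : Setup ψ s) (hgen : Gen s) (hJ0 : J ≠ ⊥) :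
    ∃ h ∈ J, h * h = (4 : K)⁻¹ • 1 := by
  by_contra hcon
  push Not at hcon
  have h1 : s ≤ I := by
    refine hgen I (fun X hX Y hY => D.hI' X (D.hI hX) Y hY) (fun g hg hgg => ?_)
    rcases D.half_mem S hgg hg with h | h
    · exact h
    · exact absurd hgg (hcon g h)
  apply hJ0
  rw [eq_bot_iff]
  intro Y hY
  rw [Submodule.mem_bot]
  exact schur_zero S.irred (fun X hX => (D.comm X (h1 hX) Y hY).symm) (S.trace_eq_zero (D.hJ hY))

/-- evenness -/
lemma trace_even (D : Ide s I J) (S : Setup ψ s) (hgen : Gen s) (hJ0 : J ≠ ⊥)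
    {c : Module.End K V} (hc : c ∈ alg I) (hcc : c * c = c) :
    ∃ k : ℕ, trace K V c = 2 * (k : K) := by
  obtain ⟨h, hh, hhh⟩ := D.exists_half S hgen hJ0
  have T := D.two S
  set P := (2 : K)⁻¹ • (1 : Module.End K V) + h with hP
  have hPP : P * P = P := half_PP hhh
  have hPJ : P ∈ alg J :=
    (alg J).add_mem ((alg J).smul_mem (alg J).one_mem _) (Two.mem_I hh)
  have htP : trace K V P = (2 : K)⁻¹ * (Module.finrank K V : K) := by
    rw [hP, map_add, map_smul, trace_one', S.trace_eq_zero (D.hJ hh), smul_eq_mul, add_zero]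
  have h1 := T.trace_mul hc hPJ
  have hn := dim_ne (K := K) S.irred.1
  have h2 : (c * P) * (c * P) = c * P := by
    have : (c * P) * (c * P) = c * (P * c) * P := by noncomm_ring
    rw [this, ← T.comm_alg hc hPJ]
    have : c * (c * P) * P = (c * c) * (P * P) := by noncomm_ring
    rw [this, hcc, hPP]
  have h3 := trace_idem h2
  refine ⟨Module.finrank K (LinearMap.range (c * P)), ?_⟩
  rw [← h3]
  rw [htP] at h1
  have h4 : (trace K V (c * P) - (2 : K)⁻¹ * trace K V c) * (Module.finrank K V : K) = 0 := by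
    linear_combination h1
  rcases mul_eq_zero.1 h4 with h5 | h5
  · linear_combination (-2 : K) * h5
  · exact absurd h5 hn

end Ide

end Pool.Agent.Helper16.NP
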