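import Pool.Agent.Helper16.NP.Halves

/-!
# Newton polygon criterion: spectral projections
-/

namespace Pool.Agent.Helper16.NP

open LinearMap Polynomial Pool.Agent.Helper66.OTR Pool.Agent.Helper98.NP

set_option linter.unusedSectionVars false

variable {K V : Type*} [Field K] [CharZero K] [IsAlgClosed K] [AddCommGroup V] [Module K V]
  [FiniteDimensional K V]
variable {ψ : LinearMap.BilinForm K V} {s I J : Submodule K (Module.End K V)}

lemma aeval_eig {a : Module.End K V} {μ : K} {v : V} (h : a v = μ • v) (P : K[X]) :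
    aeval a P v = P.eval μ • v := by
  by_cases hv : v = 0
  · rw [hv]; simp
  exact Module.End.aeval_apply_of_hasEigenvector ⟨by rwa [Module.End.mem_eigenspace_iff], hv⟩

/-- diagonalisable -/
def Diag (a : Module.End K V) : Prop := ⨆ μ : K, Module.End.eigenspace a μ = ⊤

lemma Diag.ext {a X Y : Module.End K V} (ha : Diag a)
    (h : ∀ (μ : K) (v : V), a v = μ • v → X v = Y v) : X = Y := by
  have h1 : (⊤ : Submodule K V) ≤ LinearMap.ker (X - Y) := by
    rw [← ha]
    refine iSup_le fun μ v hv => ?_
    rw [Module.End.mem_eigenspace_iff] at hv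
    rw [LinearMap.mem_ker, LinearMap.sub_apply, h μ v hv, sub_self]
  ext v
  have h2 : v ∈ LinearMap.ker (X - Y) := h1 trivial
  rw [LinearMap.mem_ker, LinearMap.sub_apply, sub_eq_zero] at h2
  exact h2

/-- maps which agree on common eigenvectors are equal -/
lemma Diag.ext₂ {a b X Y : Module.End K V} (ha : Diag a) (hb : Diag b) (hab : a * b = b * a)
    (h : ∀ (μ ν : K) (v : V), a v = μ • v → b v = ν • v → X v = Y v) : X = Y := by
  refine ha.ext fun μ v hv => ?_
  have h1 : ∀ x ∈ Module.End.eigenspace a μ, b x ∈ Module.End.eigenspace a μ := by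
    intro x hx
    rw [Module.End.mem_eigenspace_iff] at hx ⊢
    rw [← Module.End.mul_apply, hab, Module.End.mul_apply, hx, map_smul]
  have h2 := Submodule.inf_iSup_genEigenspace h1 1
  have h3 : Module.End.eigenspace a μ ≤ LinearMap.ker (X - Y) := by
    have h4 : Module.End.eigenspace a μ ≤ Module.End.eigenspace a μ ⊓ ⨆ ν, b.genEigenspace ν 1 :=
      le_inf le_rfl (by
        have : ⨆ ν, b.genEigenspace ν 1 = ⊤ := hb
        rw [this]; exact le_top)
    rw [h2] at h4
    refine h4.trans (iSup_le fun ν w hw => ?_)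
    obtain ⟨hw1, hw2⟩ := hw
    rw [SetLike.mem_coe, Module.End.mem_eigenspace_iff] at hw1
    have hw3 : b w = ν • w := by
      have : w ∈ Module.End.eigenspace b ν := hw2
      rwa [Module.End.mem_eigenspace_iff] at this
    rw [LinearMap.mem_ker, LinearMap.sub_apply, h μ ν w hw1 hw3, sub_self]
  have h5 : v ∈ Module.End.eigenspace a μ := by rwa [Module.End.mem_eigenspace_iff]
  have h6 := h3 h5
  rw [LinearMap.mem_ker, LinearMap.sub_apply, sub_eq_zero] at h6
  exact h6

lemma aeval_mem_alg {A : Subalgebra K (Module.End K V)} {a : Module.End K V} (ha : a ∈ A)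
    (P : K[X]) : aeval a P ∈ A := by
  rw [aeval_eq_sum_range]
  exact A.sum_mem fun i _ => A.smul_mem (A.pow_mem ha i) _

lemma adj_aeval {a a' : Module.End K V} (h : Adj ψ a a') (P : K[X]) :
    Adj ψ (aeval a P) (aeval a' P) := by
  have hpow : ∀ n : ℕ, Adj ψ (a ^ n) (a' ^ n) := by
    intro n
    induction n with
    | zero => intro x y; simp
    | succ n ih =>
      rw [pow_succ, pow_succ']
      exact ih.mul h
  intro x y
  rw [aeval_eq_sum_range, aeval_eq_sum_range]
  simp only [LinearMap.sum_apply, LinearMap.smul_apply, map_sum, map_smul, smul_eq_mul]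
  refine Finset.sum_congr rfl fun i _ => ?_
  rw [hpow i x y]

/-- the spectral projection for a set of eigenvalues and its adjoint -/
structure Projs (A : Subalgebra K (Module.End K V)) (a c c' : Module.End K V) (S : K → Prop) :
    Prop where
  mem : c ∈ A
  mem' : c' ∈ A
  one : ∀ (μ : K) (v : V), a v = μ • v → S μ → c v = v
  zero : ∀ (μ : K) (v : V), a v = μ • v → ¬ S μ → c v = 0
  one' : ∀ (μ : K) (v : V), a v = μ • v → S (-μ) → c' v = v
  zero' : ∀ (μ : K) (v : V), a v = μ • v → ¬ S (-μ) → c' v = 0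
  tr : trace K V c = trace K V c'
  idem : c * c = c
  idem' : c' * c' = c'

lemma exists_projs (hnd : ψ.Nondegenerate) {A : Subalgebra K (Module.End K V)}
    {a : Module.End K V} (haA : a ∈ A) (ha : Diag a) (hadj : Adj ψ a (-a)) (S : K → Prop) :
    ∃ c c', Projs A a c c' S := by
  classical
  obtain ⟨Λ, hΛ⟩ : ∃ Λ : Finset K, ∀ (μ : K) (v : V), a v = μ • v → v ≠ 0 → μ ∈ Λ ∧ -μ ∈ Λ := by
    refine ⟨a.finite_hasEigenvalue.toFinset ∪ a.finite_hasEigenvalue.toFinset.image (fun x => -x),
      fun μ v hv hv0 => ?_⟩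
    have h1 : a.HasEigenvalue μ :=
      Module.End.hasEigenvalue_of_hasEigenvector ⟨by rwa [Module.End.mem_eigenspace_iff], hv0⟩
    have h2 : μ ∈ a.finite_hasEigenvalue.toFinset := by simpa using h1
    exact ⟨Finset.mem_union_left _ h2, Finset.mem_union_right _ (Finset.mem_image_of_mem _ h2)⟩
  obtain ⟨P, hP⟩ : ∃ P : K[X], ∀ μ ∈ Λ, P.eval μ = if S μ then 1 else 0 :=
    ⟨Lagrange.interpolate Λ id (fun μ => if S μ then 1 else 0), fun μ hμ => by
      have := Lagrange.eval_interpolate_at_node (s := Λ) (v := (id : K → K))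
        (fun μ => if S μ then (1 : K) else 0) (Set.injOn_id _) hμ
      simpa using this⟩
  have hneg : ∀ (μ : K) (v : V), a v = μ • v → (-a) v = (-μ) • v := by
    intro μ v hv
    rw [LinearMap.neg_apply, hv, neg_smul]
  have o1 : ∀ (μ : K) (v : V), a v = μ • v → S μ → aeval a P v = v := by
    intro μ v hv hS
    by_cases hv0 : v = 0
    · rw [hv0, map_zero]
    · rw [aeval_eig hv, hP μ (hΛ μ v hv hv0).1, if_pos hS, one_smul]
  have z1 : ∀ (μ : K) (v : V), a v = μ • v → ¬ S μ → aeval a P v = 0 := by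
    intro μ v hv hS
    by_cases hv0 : v = 0
    · rw [hv0, map_zero]
    · rw [aeval_eig hv, hP μ (hΛ μ v hv hv0).1, if_neg hS, zero_smul]
  have o2 : ∀ (μ : K) (v : V), a v = μ • v → S (-μ) → aeval (-a) P v = v := by
    intro μ v hv hS
    by_cases hv0 : v = 0
    · rw [hv0, map_zero]
    · rw [aeval_eig (hneg μ v hv), hP (-μ) (hΛ μ v hv hv0).2, if_pos hS, one_smul]
  have z2 : ∀ (μ : K) (v : V), a v = μ • v → ¬ S (-μ) → aeval (-a) P v = 0 := by
    intro μ v hv hS
    by_cases hv0 : v = 0
    · rw [hv0, map_zero]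
    · rw [aeval_eig (hneg μ v hv), hP (-μ) (hΛ μ v hv hv0).2, if_neg hS, zero_smul]
  refine ⟨aeval a P, aeval (-a) P, aeval_mem_alg haA P, aeval_mem_alg (A.neg_mem haA) P,
    o1, z1, o2, z2, (adj_aeval hadj P).trace_eq hnd, ?_, ?_⟩
  · refine ha.ext fun μ v hv => ?_
    by_cases hS : S μ
    · rw [Module.End.mul_apply, o1 μ v hv hS, o1 μ v hv hS]
    · rw [Module.End.mul_apply, z1 μ v hv hS, map_zero]
  · refine ha.ext fun μ v hv => ?_
    by_cases hS : S (-μ)
    · rw [Module.End.mul_apply, o2 μ v hv hS, o2 μ v hv hS]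
    · rw [Module.End.mul_apply, z2 μ v hv hS, map_zero]

lemma trace_idem_ne {E : Module.End K V} (hE : E * E = E) (h0 : E ≠ 0) : trace K V E ≠ 0 := by
  rw [trace_idem hE]
  intro h
  apply h0
  apply eq_zero_of_rank
  exact_mod_cast h

/-- negatives of eigenvalues are eigenvalues -/
lemma neg_eig (hnd : ψ.Nondegenerate) {a : Module.End K V} (ha : Diag a) (hadj : Adj ψ a (-a))
    {μ : K} {v : V} (hv : a v = μ • v) (hv0 : v ≠ 0) : ∃ w : V, w ≠ 0 ∧ a w = (-μ) • w := by
  obtain ⟨c, c', hp⟩ := exists_projs hnd (A := ⊤) (a := a) trivial ha hadj (fun x => x = μ)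
  have h1 : c ≠ 0 := by
    intro h
    have := hp.one μ v hv rfl
    rw [h, LinearMap.zero_apply] at this
    exact hv0 this.symm
  have h2 := trace_idem_ne hp.idem h1
  rw [hp.tr] at h2
  by_contra hcon
  push Not at hcon
  apply h2
  have h3 : c' = 0 := by
    refine ha.ext fun ν w hw => ?_
    rw [LinearMap.zero_apply]
    by_cases hν : -ν = μ
    · have : w = 0 := by
        by_contra hw0
        refine hcon w hw0 ?_
        rw [← hν, neg_neg]
        exact hw
      rw [this, map_zero]
    · exact hp.zero' ν w hw hν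
  rw [h3, map_zero]

/-- common eigenvectors -/
lemma common_eig (T : Two s I J) (hnd : ψ.Nondegenerate) {a b : Module.End K V} (haI : a ∈ alg I)
    (hbJ : b ∈ alg J) (ha : Diag a) (hb : Diag b) (hadj : Adj ψ a (-a)) (hbdj : Adj ψ b (-b))
    {μ ν : K} {v w : V} (hv : a v = μ • v) (hv0 : v ≠ 0) (hw : b w = ν • w) (hw0 : w ≠ 0) :
    ∃ u : V, u ≠ 0 ∧ a u = μ • u ∧ b u = ν • u := by
  obtain ⟨c, c', hp⟩ := exists_projs hnd haI ha hadj (fun x => x = μ)
  obtain ⟨d, d', hq⟩ := exists_projs hnd hbJ hb hbdj (fun x => x = ν)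
  have h1 : c ≠ 0 := by
    intro h
    have := hp.one μ v hv rfl
    rw [h, LinearMap.zero_apply] at this
    exact hv0 this.symm
  have h2 : d ≠ 0 := by
    intro h
    have := hq.one ν w hw rfl
    rw [h, LinearMap.zero_apply] at this
    exact hw0 this.symm
  have h3 : c * d ≠ 0 := by
    intro h
    rcases T.ann hp.mem hq.mem h with h | h
    · exact h1 h
    · exact h2 h
  obtain ⟨x, hx⟩ : ∃ x, (c * d) x ≠ 0 := by
    by_contra hcon
    push Not at hcon
    exact h3 (LinearMap.ext hcon)
  have hac : a * c = μ • c := by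
    refine ha.ext fun κ y hy => ?_
    rw [Module.End.mul_apply, LinearMap.smul_apply]
    by_cases hκ : κ = μ
    · rw [hp.one κ y hy hκ, hy, hκ]
    · rw [hp.zero κ y hy hκ, map_zero, smul_zero]
  have hbd : b * d = ν • d := by
    refine hb.ext fun κ y hy => ?_
    rw [Module.End.mul_apply, LinearMap.smul_apply]
    by_cases hκ : κ = ν
    · rw [hq.one κ y hy hκ, hy, hκ]
    · rw [hq.zero κ y hy hκ, map_zero, smul_zero]
  refine ⟨(c * d) x, hx, ?_, ?_⟩
  · rw [← Module.End.mul_apply, ← mul_assoc, hac, smul_mul_assoc, LinearMap.smul_apply]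
  · have : b * (c * d) = ν • (c * d) := by
      rw [← mul_assoc, ← T.comm_alg hp.mem hbJ, mul_assoc, hbd, mul_smul_comm]
    rw [← Module.End.mul_apply, this, LinearMap.smul_apply]

lemma Integral.diag {h : Module.End K V} (hint : Integral h) : Diag h := by
  rw [Diag, eq_top_iff, ← (hint : _ = ⊤)]
  exact iSup_le fun n => le_iSup (fun μ : K => Module.End.eigenspace h μ) (n : K)

lemma Integral.eig {h : Module.End K V} (hint : Integral h) {μ : K} {v : V} (hv : h v = μ • v)
    (hv0 : v ≠ 0) : ∃ n : ℤ, μ = n := by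
  by_contra hcon
  push Not at hcon
  have h1 := Module.End.eigenspaces_iSupIndep h μ
  have h2 : (⊤ : Submodule K V) ≤ ⨆ ν, ⨆ (_ : ν ≠ μ), Module.End.eigenspace h ν := by
    rw [← (hint : _ = ⊤)]
    exact iSup_le fun n => le_iSup₂_of_le (n : K) (fun h => hcon n h.symm) le_rfl
  rw [top_le_iff] at h2
  rw [h2, disjoint_top] at h1
  have h3 : v ∈ Module.End.eigenspace h μ := by rwa [Module.End.mem_eigenspace_iff]
  rw [h1, Submodule.mem_bot] at h3
  exact hv0 h3

/-- the dimension of the odd part is the trace of the corresponding projection -/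
lemma finrank_oddPart {h E : Module.End K V} (hint : Integral h)
    (hone : ∀ (n : ℤ) (v : V), h v = (n : K) • v → Odd n → E v = v)
    (hzero : ∀ (n : ℤ) (v : V), h v = (n : K) • v → ¬ Odd n → E v = 0) :
    trace K V E = (Module.finrank K (oddPart h) : K) := by
  have hext : ∀ X Y : Module.End K V, (∀ (n : ℤ) (v : V), h v = (n : K) • v → X v = Y v) →
      X = Y := by
    intro X Y hXY
    refine (Integral.diag hint).ext fun μ v hv => ?_
    by_cases hv0 : v = 0
    · rw [hv0, map_zero, map_zero]
    · obtain ⟨n, rfl⟩ := Integral.eig hint hv hv0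
      exact hXY n v hv
  have hEE : E * E = E := by
    refine hext _ _ fun n v hv => ?_
    by_cases ho : Odd n
    · rw [Module.End.mul_apply, hone n v hv ho, hone n v hv ho]
    · rw [Module.End.mul_apply, hzero n v hv ho, map_zero]
  rw [trace_idem hEE]
  have hr : LinearMap.range E = oddPart h := by
    apply le_antisymm
    · rw [LinearMap.range_eq_map, ← (hint : _ = ⊤), Submodule.map_iSup]
      refine iSup_le fun n => ?_
      rw [Submodule.map_le_iff_le_comap]
      intro v hv
      have hv' := hv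
      rw [Module.End.mem_eigenspace_iff] at hv'
      rw [Submodule.mem_comap]
      by_cases ho : Odd n
      · rw [hone n v hv' ho]
        exact (le_iSup₂_of_le n ho le_rfl : Module.End.eigenspace h (n : K) ≤ oddPart h) hv
      · rw [hzero n v hv' ho]
        exact Submodule.zero_mem _
    · refine iSup₂_le fun n ho v hv => ?_
      rw [Module.End.mem_eigenspace_iff] at hv
      exact ⟨v, hone n v hv ho⟩
  rw [hr]

/-- the two components of a diagonalisable element are diagonalisable -/
lemma diag_components (T : Two s I J) {a b : Module.End K V} (ha : a ∈ alg I) (hb : b ∈ alg J)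
    (hab : Diag (a + b)) : Diag a ∧ Diag b := by
  have hss : (a + b).IsSemisimple := by
    classical
    have hsq : Squarefree (∏ μ ∈ (a + b).finite_hasEigenvalue.toFinset, (X - C μ)) := by
      refine (Finset.squarefree_prod_of_pairwise_isCoprime ?_ ?_)
      · intro μ _ ν _ hne
        exact (Polynomial.isCoprime_X_sub_C_of_isUnit_sub (sub_ne_zero.2 hne).isUnit).isRelPrime
      · intro μ _
        exact (Polynomial.irreducible_X_sub_C μ).squarefree
    refine Module.End.isSemisimple_of_squarefree_aeval_eq_zero hsq ?_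
    refine hab.ext fun μ v hv => ?_
    rw [LinearMap.zero_apply]
    by_cases hv0 : v = 0
    · rw [hv0, map_zero]
    rw [aeval_eig hv]
    have h1 : (a + b).HasEigenvalue μ :=
      Module.End.hasEigenvalue_of_hasEigenvector ⟨by rwa [Module.End.mem_eigenspace_iff], hv0⟩
    have h2 : μ ∈ (a + b).finite_hasEigenvalue.toFinset := by simpa using h1
    rw [Polynomial.eval_prod, Finset.prod_eq_zero h2 (by simp), zero_smul]
  obtain ⟨an, han, as, has, hanil, hass, hae⟩ := a.exists_isNilpotent_isSemisimple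
  obtain ⟨bn, hbn, bs, hbs, hbnil, hbss, hbe⟩ := b.exists_isNilpotent_isSemisimple
  have hle : ∀ {A : Subalgebra K (Module.End K V)} {x y : Module.End K V}, x ∈ A →
      y ∈ Algebra.adjoin K {x} → y ∈ A := by
    intro A x y hx hy
    exact (Algebra.adjoin_le (Set.singleton_subset_iff.2 hx)) hy
  have m1 : an ∈ alg I := hle ha han
  have m2 : as ∈ alg I := hle ha has
  have m3 : bn ∈ alg J := hle hb hbn
  have m4 : bs ∈ alg J := hle hb hbs
  have c1 : Commute as bs := T.comm_alg m2 m4
  have c2 : Commute an bn := T.comm_alg m1 m3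
  have hcomm : ∀ {x y z : Module.End K V}, y ∈ Algebra.adjoin K {x} → z ∈ Algebra.adjoin K {x} →
      Commute y z := by
    intro x y z hy hz
    rw [Algebra.adjoin_singleton_eq_range_aeval] at hy hz
    obtain ⟨p, rfl⟩ := hy
    obtain ⟨q, rfl⟩ := hz
    show aeval x p * aeval x q = aeval x q * aeval x p
    rw [← map_mul, ← map_mul, mul_comm]
  have hs1 : (as + bs).IsSemisimple := hass.add_of_commute c1 hbss
  have hn1 : IsNilpotent (an + bn) := c2.isNilpotent_add hanil hbnil
  have c3 : Commute (a + b) (as + bs) := by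
    have h1 : Commute a as := hcomm (Algebra.self_mem_adjoin_singleton K a) has
    have h2 : Commute b bs := hcomm (Algebra.self_mem_adjoin_singleton K b) hbs
    have h3 : Commute a bs := T.comm_alg ha m4
    have h4 : Commute b as := (T.comm_alg m2 hb).symm
    exact (h1.add_right h3).add_left (h4.add_right h2)
  have hs2 : (a + b - (as + bs)).IsSemisimple := hss.sub_of_commute c3 hs1
  have he : a + b - (as + bs) = an + bn := by
    rw [hae, hbe]; abel
  rw [he] at hs2
  have h0 : an + bn = 0 := Module.End.eq_zero_of_isNilpotent_isSemisimple hn1 hs2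
  have h1 : an = 0 := by
    refine schur_zero T.irred (T.inter m1 ?_)
      (LinearMap.isNilpotent_trace_of_isNilpotent hanil).eq_zero
    rw [eq_neg_of_add_eq_zero_left h0]
    exact (alg J).neg_mem m3
  rw [h1, zero_add] at h0 hae
  rw [h0, zero_add] at hbe
  rw [hae, hbe]
  exact ⟨hass.iSup_eigenspace_eq_top, hbss.iSup_eigenspace_eq_top⟩

end Pool.Agent.Helper16.NP
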