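import Pool.Agent.Helper98.NP.LieDefs

/-!
# Newton polygon criterion: two commuting families of operators
-/

namespace Pool.Agent.Helper16.NP

open LinearMap Polynomial Pool.Agent.Helper66.OTR

set_option linter.unusedSectionVars false

variable {K V : Type*} [Field K] [CharZero K] [IsAlgClosed K] [AddCommGroup V] [Module K V]
  [FiniteDimensional K V]

/-- Schur's lemma -/
lemma schur {s : Submodule K (Module.End K V)} (hirr : Irred s) {c : Module.End K V}
    (hc : ∀ X ∈ s, c * X = X * c) : ∃ k : K, c = k • 1 := by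
  have : Nontrivial V := hirr.1
  obtain ⟨k, hk⟩ := Module.End.exists_eigenvalue c
  refine ⟨k, ?_⟩
  have h1 := hirr.2 (Module.End.eigenspace c k) (fun X hX w hw => by
    rw [Module.End.mem_eigenspace_iff] at hw ⊢
    rw [← Module.End.mul_apply, hc X hX, Module.End.mul_apply, hw, map_smul])
  rcases h1 with h1 | h1
  · exact absurd h1 hk
  · ext v
    have : v ∈ Module.End.eigenspace c k := by rw [h1]; trivial
    rw [Module.End.mem_eigenspace_iff] at this
    simpa using this

lemma dim_ne (h : Nontrivial V) : (Module.finrank K V : K) ≠ 0 := by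
  have : 0 < Module.finrank K V := Module.finrank_pos
  exact_mod_cast this.ne'

lemma trace_one' : trace K V (1 : Module.End K V) = (Module.finrank K V : K) := by
  rw [LinearMap.trace_one]

lemma schur_zero {s : Submodule K (Module.End K V)} (hirr : Irred s) {c : Module.End K V}
    (hc : ∀ X ∈ s, c * X = X * c) (htr : trace K V c = 0) : c = 0 := by
  obtain ⟨k, rfl⟩ := schur hirr hc
  rw [map_smul, trace_one', smul_eq_mul] at htr
  rcases mul_eq_zero.1 htr with h | h
  · rw [h, zero_smul]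
  · exact absurd h (dim_ne hirr.1)

/-- an irreducible Lie algebra of trace zero endomorphisms is perfect -/
lemma perfect {s : Submodule K (Module.End K V)} (hs : LieClosed s) (hirr : Irred s)
    (htr : ∀ X ∈ s, trace K V X = 0) :
    s ≤ Submodule.span K {Z | ∃ X ∈ s, ∃ Y ∈ s, Z = X * Y - Y * X} := by
  set C : Set (Module.End K V) := {Z | ∃ X ∈ s, ∃ Y ∈ s, Z = X * Y - Y * X} with hC
  have hrefl : (Setup.tf s).IsRefl := by
    intro X Y h
    rw [Setup.tf_apply] at h ⊢
    rw [trace_mul_comm]; exact h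
  have hnd : (Setup.tf s).Nondegenerate := by
    rw [LinearMap.BilinForm.nondegenerate_iff_ker_eq_bot]
    rw [LinearMap.ker_eq_bot']
    intro X hX
    ext1
    refine trace_nondeg hs hirr htr X.2 (fun Y hY => ?_)
    have := congrArg (fun f => f ⟨Y, hY⟩) hX
    exact this
  have h1 := LinearMap.BilinForm.orthogonal_orthogonal hnd hrefl
    ((Submodule.span K C).comap s.subtype)
  have h2 : (Setup.tf s).orthogonal ((Submodule.span K C).comap s.subtype) = ⊥ := by
    rw [eq_bot_iff]
    intro Z hZ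
    rw [LinearMap.BilinForm.mem_orthogonal_iff] at hZ
    have hc : ∀ X ∈ s, Z.1 * X = X * Z.1 := by
      intro X hX
      have h3 : Z.1 * X - X * Z.1 = 0 := by
        refine trace_nondeg hs hirr htr (hs _ Z.2 _ hX) (fun Y hY => ?_)
        have h4 := hZ ⟨X * Y - Y * X, hs _ hX _ hY⟩
          (Submodule.subset_span ⟨X, hX, Y, hY, rfl⟩ : X * Y - Y * X ∈ Submodule.span K C)
        have h5 : trace K V ((X * Y - Y * X) * Z.1) = 0 := h4
        rw [sub_mul, map_sub] at h5
        have e1 : trace K V (X * Y * Z.1) = trace K V (Z.1 * X * Y) := by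
          rw [trace_mul_comm, mul_assoc]
        have e2 : trace K V (Y * X * Z.1) = trace K V (X * Z.1 * Y) := by
          rw [mul_assoc, trace_mul_comm]
        rw [sub_mul, map_sub, ← e1, ← e2]
        exact h5
      exact sub_eq_zero.1 h3
    have h6 := schur_zero hirr hc (htr _ Z.2)
    rw [Submodule.mem_bot]
    exact Subtype.ext h6
  rw [h2] at h1
  intro X hX
  have h3 : (⟨X, hX⟩ : s) ∈ (Setup.tf s).orthogonal ⊥ := by
    rw [LinearMap.BilinForm.mem_orthogonal_iff]
    intro Y hY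
    rw [Submodule.mem_bot] at hY
    rw [hY]
    show Setup.tf s 0 _ = 0
    rw [map_zero]; rfl
  rw [h1] at h3
  exact h3

/-- the associative algebra generated by a subspace -/
abbrev alg (I : Submodule K (Module.End K V)) : Subalgebra K (Module.End K V) :=
  Algebra.adjoin K (I : Set (Module.End K V))

/-- two commuting subspaces whose sum acts irreducibly -/
structure Two (s I J : Submodule K (Module.End K V)) : Prop where
  irred : Irred s
  sup : s ≤ I ⊔ J
  comm : ∀ X ∈ I, ∀ Y ∈ J, X * Y = Y * X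
  trI : ∀ X ∈ I, trace K V X = 0
  trJ : ∀ X ∈ J, trace K V X = 0

namespace Two

variable {s I J : Submodule K (Module.End K V)}

lemma symm (T : Two s I J) : Two s J I :=
  ⟨T.irred, by rw [sup_comm]; exact T.sup, fun X hX Y hY => (T.comm Y hY X hX).symm, T.trJ, T.trI⟩

lemma comm_alg (T : Two s I J) {x y : Module.End K V} (hx : x ∈ alg I) (hy : y ∈ alg J) :
    x * y = y * x := by
  have h1 : ∀ X ∈ (I : Set (Module.End K V)), Commute y X := by
    intro X hX
    refine (Algebra.commute_of_mem_adjoin_of_forall_mem_commute hy ?_).symm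
    intro Y hY
    exact T.comm X hX Y hY
  exact (Algebra.commute_of_mem_adjoin_of_forall_mem_commute hx h1).symm

lemma mem_I {X : Module.End K V} (hX : X ∈ I) : X ∈ alg I := Algebra.subset_adjoin hX

/-- stable subspaces -/
lemma stable (T : Two s I J) {W : Submodule K V} (h1 : ∀ X ∈ I, ∀ w ∈ W, X w ∈ W)
    (h2 : ∀ X ∈ J, ∀ w ∈ W, X w ∈ W) : W = ⊥ ∨ W = ⊤ := by
  refine T.irred.2 W (fun X hX w hw => ?_)
  obtain ⟨a, ha, b, hb, rfl⟩ := Submodule.mem_sup.1 (T.sup hX)
  exact W.add_mem (h1 a ha w hw) (h2 b hb w hw)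

/-- elements commuting with `I` and `J` -/
lemma central (T : Two s I J) {c : Module.End K V} (h1 : ∀ X ∈ I, c * X = X * c)
    (h2 : ∀ X ∈ J, c * X = X * c) : ∀ X ∈ s, c * X = X * c := by
  intro X hX
  obtain ⟨a, ha, b, hb, rfl⟩ := Submodule.mem_sup.1 (T.sup hX)
  rw [mul_add, add_mul, h1 a ha, h2 b hb]

lemma inter (T : Two s I J) {c : Module.End K V} (h1 : c ∈ alg I) (h2 : c ∈ alg J) :
    ∀ X ∈ s, c * X = X * c :=
  T.central (fun _ hX => (T.comm_alg (mem_I hX) h2).symm) (fun _ hX => T.comm_alg h1 (mem_I hX))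

/-- no zero divisors between the two algebras -/
lemma ann (T : Two s I J) {x y : Module.End K V} (hx : x ∈ alg I) (hy : y ∈ alg J)
    (hxy : x * y = 0) : x = 0 ∨ y = 0 := by
  by_cases hy0 : y = 0
  · exact Or.inr hy0
  left
  let W : Submodule K V :=
    { carrier := {v | ∀ b ∈ alg I, x (b v) = 0}
      zero_mem' := by intro b _; simp
      add_mem' := by
        intro v w hv hw b hb
        rw [map_add, map_add, hv b hb, hw b hb, add_zero]
      smul_mem' := by
        intro c v hv b hb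
        rw [map_smul, map_smul, hv b hb, smul_zero] }
  have hW : W = ⊥ ∨ W = ⊤ := by
    refine T.stable (fun X hX w hw b hb => ?_) (fun Y hY w hw b hb => ?_)
    · exact hw (b * X) ((alg I).mul_mem hb (mem_I hX))
    · have h1 : x * b * Y = Y * (x * b) := T.comm_alg ((alg I).mul_mem hx hb) (mem_I hY)
      have h2 : (x * b * Y) w = 0 := by
        rw [h1, Module.End.mul_apply, Module.End.mul_apply, hw b hb, map_zero]
      exact h2
  rcases hW with h | h
  · exfalso
    apply hy0
    ext v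
    have h1 : y v ∈ W := by
      intro b hb
      have h2 : x * (b * y) = 0 := by
        rw [T.comm_alg hb hy, ← mul_assoc, hxy, zero_mul]
      have h3 : (x * (b * y)) v = 0 := by rw [h2]; rfl
      exact h3
    rw [h, Submodule.mem_bot] at h1
    exact h1
  · ext v
    have h1 : v ∈ W := by rw [h]; trivial
    exact h1 1 (alg I).one_mem

/-- the trace zero part of `alg I` -/
noncomputable def zp (I : Submodule K (Module.End K V)) : Submodule K (Module.End K V) :=
  Subalgebra.toSubmodule (alg I) ⊓ LinearMap.ker (trace K V)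

omit [CharZero K] [IsAlgClosed K] [FiniteDimensional K V] in
lemma mem_zp {X : Module.End K V} : X ∈ zp I ↔ X ∈ alg I ∧ trace K V X = 0 := Iff.rfl

lemma zp_closed {X Y : Module.End K V} (hX : X ∈ zp I) (hY : Y ∈ zp I) :
    X * Y - Y * X ∈ zp I := by
  rw [mem_zp] at hX hY ⊢
  refine ⟨(alg I).sub_mem ((alg I).mul_mem hX.1 hY.1) ((alg I).mul_mem hY.1 hX.1), ?_⟩
  rw [map_sub, trace_mul_comm, sub_self]

lemma comm_sup (T : Two s I J) {x₁ x₂ y₁ y₂ : Module.End K V} (h1 : x₁ ∈ alg I) (h2 : x₂ ∈ alg I)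
    (h3 : y₁ ∈ alg J) (h4 : y₂ ∈ alg J) :
    (x₁ + y₁) * (x₂ + y₂) - (x₂ + y₂) * (x₁ + y₁) = (x₁ * x₂ - x₂ * x₁) + (y₁ * y₂ - y₂ * y₁) := by
  have e1 := T.comm_alg h1 h4
  have e2 := T.comm_alg h2 h3
  simp only [add_mul, mul_add]
  rw [e1, e2]
  abel

/-- orthogonality of the trace zero parts -/
lemma trace_zero (T : Two s I J) {x y : Module.End K V} (hx : x ∈ zp I) (hy : y ∈ zp J) :
    trace K V (x * y) = 0 := by
  have hcl : LieClosed (zp I ⊔ zp J) := by
    intro X hX Y hY
    obtain ⟨x₁, hx₁, y₁, hy₁, rfl⟩ := Submodule.mem_sup.1 hX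
    obtain ⟨x₂, hx₂, y₂, hy₂, rfl⟩ := Submodule.mem_sup.1 hY
    rw [T.comm_sup hx₁.1 hx₂.1 hy₁.1 hy₂.1]
    exact Submodule.add_mem_sup (zp_closed hx₁ hx₂) (zp_closed hy₁ hy₂)
  have hirr : Irred (zp I ⊔ zp J) := by
    refine ⟨T.irred.1, fun W hW => T.stable (fun X hX => hW X ?_) (fun X hX => hW X ?_)⟩
    · exact Submodule.mem_sup_left ⟨mem_I hX, T.trI X hX⟩
    · exact Submodule.mem_sup_right ⟨mem_I hX, T.trJ X hX⟩
  have htr : ∀ X ∈ zp I ⊔ zp J, trace K V X = 0 := by
    intro X hX
    obtain ⟨x₁, hx₁, y₁, hy₁, rfl⟩ := Submodule.mem_sup.1 hX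
    rw [map_add, hx₁.2, hy₁.2, add_zero]
  have h1 := perfect hcl hirr htr (Submodule.mem_sup_right hy)
  set DI := Submodule.span K {Z : Module.End K V | ∃ X ∈ zp I, ∃ Y ∈ zp I, Z = X * Y - Y * X}
    with hDI
  set DJ := Submodule.span K {Z : Module.End K V | ∃ X ∈ zp J, ∃ Y ∈ zp J, Z = X * Y - Y * X}
    with hDJ
  have h2 : y ∈ DI ⊔ DJ := by
    refine (Submodule.span_le.2 ?_) h1
    rintro Z ⟨X, hX, Y, hY, rfl⟩
    obtain ⟨x₁, hx₁, y₁, hy₁, rfl⟩ := Submodule.mem_sup.1 hX
    obtain ⟨x₂, hx₂, y₂, hy₂, rfl⟩ := Submodule.mem_sup.1 hY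
    rw [T.comm_sup hx₁.1 hx₂.1 hy₁.1 hy₂.1]
    exact Submodule.add_mem_sup (Submodule.subset_span ⟨_, hx₁, _, hx₂, rfl⟩)
      (Submodule.subset_span ⟨_, hy₁, _, hy₂, rfl⟩)
  have h3 : DI ≤ zp I := by
    refine Submodule.span_le.2 ?_
    rintro Z ⟨X, hX, Y, hY, rfl⟩
    exact zp_closed hX hY
  have h4 : DJ ≤ zp J := by
    refine Submodule.span_le.2 ?_
    rintro Z ⟨X, hX, Y, hY, rfl⟩
    exact zp_closed hX hY
  obtain ⟨u, hu, v, hv, huv⟩ := Submodule.mem_sup.1 h2
  have h5 : u = 0 := by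
    have h6 : u = y - v := by rw [← huv, add_sub_cancel_right]
    refine schur_zero T.irred (T.inter (h3 hu).1 ?_) (h3 hu).2
    rw [h6]
    exact (alg J).sub_mem hy.1 (h4 hv).1
  rw [h5, zero_add] at huv
  rw [← huv]
  have h6 : DJ ≤ LinearMap.ker ((trace K V) ∘ₗ (LinearMap.mulLeft K x)) := by
    refine Submodule.span_le.2 ?_
    rintro Z ⟨X, hX, Y, hY, rfl⟩
    show trace K V (x * (X * Y - Y * X)) = 0
    rw [mul_sub, map_sub]
    have e1 : x * (Y * X) = Y * (x * X) := by
      rw [← mul_assoc, T.comm_alg hx.1 hY.1, mul_assoc]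
    rw [e1, trace_mul_comm K Y, ← mul_assoc, sub_self]
  exact h6 hv

/-- **multiplicativity of the trace** -/
theorem trace_mul (T : Two s I J) {x y : Module.End K V} (hx : x ∈ alg I) (hy : y ∈ alg J) :
    trace K V (x * y) * (Module.finrank K V : K) = trace K V x * trace K V y := by
  have hn := dim_ne (K := K) T.irred.1
  set n : K := (Module.finrank K V : K) with hnn
  set x₀ := x - (trace K V x / n) • (1 : Module.End K V) with hx₀
  set y₀ := y - (trace K V y / n) • (1 : Module.End K V) with hy₀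
  have h1 : x₀ ∈ zp I := by
    refine ⟨(alg I).sub_mem hx ((alg I).smul_mem (alg I).one_mem _), ?_⟩
    show trace K V x₀ = 0
    rw [hx₀, map_sub, map_smul, trace_one', smul_eq_mul, div_mul_cancel₀ _ hn, sub_self]
  have h2 : y₀ ∈ zp J := by
    refine ⟨(alg J).sub_mem hy ((alg J).smul_mem (alg J).one_mem _), ?_⟩
    show trace K V y₀ = 0
    rw [hy₀, map_sub, map_smul, trace_one', smul_eq_mul, div_mul_cancel₀ _ hn, sub_self]
  have h3 := T.trace_zero h1 h2
  have e : x₀ * y₀ = x * y - (trace K V y / n) • x - (trace K V x / n) • y +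
      (trace K V x / n * (trace K V y / n)) • 1 := by
    rw [hx₀, hy₀]
    simp only [sub_mul, mul_sub, smul_mul_assoc, mul_smul_comm, one_mul, mul_one]
    module
  rw [e] at h3
  simp only [map_add, map_sub, map_smul, trace_one', smul_eq_mul, ← hnn] at h3
  field_simp at h3
  linear_combination h3

end Two

end Pool.Agent.Helper16.NP
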