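import Pool.Agent.Helper16.NP.Spec

/-!
# Newton polygon criterion: the case of two commuting ideals (module NP-L2)
-/

namespace Pool.Agent.Helper16.NP

open LinearMap Polynomial Pool.Agent.Helper66.OTR Pool.Agent.Helper98.NP

set_option linter.unusedSectionVars false

variable {K V : Type*} [Field K] [CharZero K] [IsAlgClosed K] [AddCommGroup V] [Module K V]
  [FiniteDimensional K V]
variable {ψ : LinearMap.BilinForm K V} {s : Submodule K (Module.End K V)}

/-- positive odd integers -/
def PosOdd (μ : K) : Prop := ∃ n : ℤ, Odd n ∧ 0 < n ∧ μ = n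

/-- `1/2` modulo `2` -/
def HalfEven (μ : K) : Prop := ∃ n : ℤ, μ = 2 * n + 2⁻¹

lemma Projs.posOdd {A : Subalgebra K (Module.End K V)} {a c c' : Module.End K V}
    (hp : Projs A a c c' PosOdd) {p : ℤ} {v : V} (hv : a v = (p : K) • v) :
    (Odd p → (c + c') v = v) ∧ (¬ Odd p → (c + c') v = 0) := by
  have h1 : ∀ q : ℤ, PosOdd (q : K) ↔ Odd q ∧ 0 < q := by
    intro q
    constructor
    · rintro ⟨n, h1, h2, h3⟩
      have : q = n := by exact_mod_cast h3
      rw [this]; exact ⟨h1, h2⟩
    · rintro ⟨h1, h2⟩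
      exact ⟨q, h1, h2, rfl⟩
  have h2 : PosOdd (-(p : K)) ↔ Odd (-p) ∧ 0 < -p := by
    rw [← h1]; push_cast; rfl
  rw [LinearMap.add_apply]
  constructor
  · intro ho
    have hp0 : p ≠ 0 := by
      rintro rfl
      exact absurd ho (by decide)
    rcases lt_or_gt_of_ne hp0 with h | h
    · rw [hp.zero _ v hv (by rw [h1]; omega), hp.one' _ v hv (by rw [h2]; exact ⟨ho.neg, by omega⟩),
        zero_add]
    · rw [hp.one _ v hv (by rw [h1]; exact ⟨ho, h⟩), hp.zero' _ v hv (by rw [h2]; omega), add_zero]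
  · intro ho
    rw [hp.zero _ v hv (by rw [h1]; exact fun h => ho h.1),
      hp.zero' _ v hv (by rw [h2]; exact fun h => ho (by simpa using h.1)), add_zero]

lemma Projs.halfEven {A : Subalgebra K (Module.End K V)} {a c c' : Module.End K V}
    (hp : Projs A a c c' HalfEven) {p : ℤ} {v : V} (hv : a v = ((p : K) + 2⁻¹) • v) :
    (Even p → c v = v ∧ c' v = 0) ∧ (¬ Even p → c v = 0 ∧ c' v = v) := by
  have h1 : ∀ q : ℤ, HalfEven ((q : K) + 2⁻¹) ↔ Even q := by
    intro q
    constructor
    · rintro ⟨n, h3⟩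
      have h4 : (q : K) = ((2 * n : ℤ) : K) := by
        push_cast
        exact add_right_cancel h3
      have : q = 2 * n := by exact_mod_cast h4
      rw [this]; exact even_two_mul n
    · rintro ⟨n, rfl⟩
      exact ⟨n, by push_cast; ring⟩
  have h2 : HalfEven (-((p : K) + 2⁻¹)) ↔ Even (-p - 1) := by
    rw [← h1]
    have : -((p : K) + 2⁻¹) = ((-p - 1 : ℤ) : K) + 2⁻¹ := by
      push_cast
      have : (2 : K)⁻¹ + 2⁻¹ = 1 := by norm_num
      linear_combination -this
    rw [this]
  constructor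
  · intro he
    refine ⟨hp.one _ v hv ((h1 p).2 he), hp.zero' _ v hv ?_⟩
    rw [h2]
    intro h
    obtain ⟨x, hx⟩ := he
    obtain ⟨y, hy⟩ := h
    omega
  · intro he
    refine ⟨hp.zero _ v hv (fun h => he ((h1 p).1 h)), hp.one' _ v hv ?_⟩
    rw [h2]
    rw [Int.not_even_iff_odd] at he
    obtain ⟨x, hx⟩ := he
    exact ⟨-x - 1, by omega⟩

/-- the trace of an operator acting on common eigenvectors as the odd projection -/
lemma trace_odd (S : Setup ψ s) {a b E : Module.End K V} (hh : a + b ∈ s)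
    (hint : Integral (a + b)) (da : Diag a) (db : Diag b) (hab : a * b = b * a)
    (hone : ∀ (α β : K) (v : V), a v = α • v → b v = β • v → v ≠ 0 → ∀ n : ℤ, α + β = n →
      Odd n → E v = v)
    (hzero : ∀ (α β : K) (v : V), a v = α • v → b v = β • v → v ≠ 0 → ∀ n : ℤ, α + β = n →
      ¬ Odd n → E v = 0) :
    trace K V E = (Module.finrank K (oddPart (a + b)) : K) := by
  obtain ⟨F, F', hp⟩ := exists_projs S.nd (A := ⊤) (a := a + b) trivial (Integral.diag hint)
    (S.adj hh) (fun μ : K => ∃ n : ℤ, Odd n ∧ μ = n)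
  have hEF : E = F := by
    refine da.ext₂ db hab fun α β v hv hw => ?_
    by_cases hv0 : v = 0
    · rw [hv0, map_zero, map_zero]
    have h1 : (a + b) v = (α + β) • v := by rw [LinearMap.add_apply, hv, hw, add_smul]
    obtain ⟨n, hn⟩ := Integral.eig hint h1 hv0
    by_cases ho : Odd n
    · rw [hone α β v hv hw hv0 n hn ho, hp.one _ v h1 ⟨n, ho, hn⟩]
    · rw [hzero α β v hv hw hv0 n hn ho, hp.zero _ v h1]
      rintro ⟨m, hm, hm'⟩
      apply ho
      rw [hn] at hm'
      have : n = m := by exact_mod_cast hm'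
      rw [this]; exact hm
  rw [hEF]
  refine finrank_oddPart hint (fun n v hv ho => hp.one _ v hv ⟨n, ho, rfl⟩)
    (fun n v hv ho => hp.zero _ v hv ?_)
  rintro ⟨m, hm, hm'⟩
  apply ho
  have : n = m := by exact_mod_cast hm'
  rw [this]; exact hm

/-- **(L2)** the case of two commuting ideals -/
theorem two_ideals (S : Setup ψ s) (hgen : Gen s) {I J : Submodule K (Module.End K V)}
    (hI : I ≤ s) (hJ : J ≤ s) (hI' : ∀ X ∈ s, ∀ Y ∈ I, X * Y - Y * X ∈ I)
    (hJ' : ∀ X ∈ s, ∀ Y ∈ J, X * Y - Y * X ∈ J) (hcomm : ∀ X ∈ I, ∀ Y ∈ J, X * Y = Y * X)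
    (hsup : s ≤ I ⊔ J) (hI0 : I ≠ ⊥) (hJ0 : J ≠ ⊥)
    {h : Module.End K V} (hh : h ∈ s) (hint : Integral h)
    (hmod : Module.finrank K (oddPart h) % 4 = 2) :
    2 * Module.finrank K (oddPart h) = Module.finrank K V := by
  have D : Ide s I J := ⟨hI, hJ, hI', hJ', hcomm, hsup⟩
  have T := D.two S
  have : Nontrivial V := S.irred.1
  have hn := dim_ne (K := K) S.irred.1
  obtain ⟨a, ha, b, hb, rfl⟩ := Submodule.mem_sup.1 (hsup hh)
  have haA : a ∈ alg I := Two.mem_I ha
  have hbA : b ∈ alg J := Two.mem_I hb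
  obtain ⟨da, db⟩ := diag_components T haA hbA (Integral.diag hint)
  have adja := S.adj (hI ha)
  have adjb := S.adj (hJ hb)
  have hab : a * b = b * a := hcomm a ha b hb
  have hsum : ∀ (α β : K) (v w : V), a v = α • v → v ≠ 0 → b w = β • w → w ≠ 0 →
      ∃ n : ℤ, α + β = n := by
    intro α β v w hv hv0 hw hw0
    obtain ⟨u, hu0, hu1, hu2⟩ := common_eig T S.nd haA hbA da db adja adjb hv hv0 hw hw0
    exact Integral.eig hint (v := u) (by rw [LinearMap.add_apply, hu1, hu2, add_smul]) hu0
  obtain ⟨α₀, hα₀⟩ := Module.End.exists_eigenvalue a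
  obtain ⟨v₀, hv₀⟩ := hα₀.exists_hasEigenvector
  have hv1 : a v₀ = α₀ • v₀ := hv₀.apply_eq_smul
  have hv2 : v₀ ≠ 0 := hv₀.2
  obtain ⟨β₀, hβ₀⟩ := Module.End.exists_eigenvalue b
  obtain ⟨w₀, hw₀⟩ := hβ₀.exists_hasEigenvector
  have hw1 : b w₀ = β₀ • w₀ := hw₀.apply_eq_smul
  have hw2 : w₀ ≠ 0 := hw₀.2
  obtain ⟨v₁, hv₁0, hv₁⟩ := neg_eig S.nd da adja hv1 hv2
  by_cases hcase : ∃ n : ℤ, α₀ = n
  · -- the integral case
    exfalso
    obtain ⟨n₀, hn₀⟩ := hcase
    have hbint : ∀ (β : K) (w : V), b w = β • w → w ≠ 0 → ∃ n : ℤ, β = n := by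
      intro β w hw hw0
      obtain ⟨n, hn⟩ := hsum α₀ β v₀ w hv1 hv2 hw hw0
      exact ⟨n - n₀, by push_cast; rw [← hn, ← hn₀]; ring⟩
    have haint : ∀ (α : K) (v : V), a v = α • v → v ≠ 0 → ∃ n : ℤ, α = n := by
      intro α v hv hv0
      obtain ⟨m, hm⟩ := hbint β₀ w₀ hw1 hw2
      obtain ⟨n, hn⟩ := hsum α β₀ v w₀ hv hv0 hw1 hw2
      exact ⟨n - m, by push_cast; rw [← hn, ← hm]; ring⟩
    obtain ⟨c, c', hp⟩ := exists_projs S.nd haA da adja PosOdd
    obtain ⟨d, d', hq⟩ := exists_projs S.nd hbA db adjb PosOdd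
    have hE : trace K V ((c + c') + (d + d') - (2 : K) • ((c + c') * (d + d'))) =
        (Module.finrank K (oddPart (a + b)) : K) := by
      refine trace_odd S hh hint da db hab (fun α β v hv hw hv0 n hn ho => ?_)
        (fun α β v hv hw hv0 n hn ho => ?_)
      · obtain ⟨p, rfl⟩ := haint α v hv hv0
        obtain ⟨q, rfl⟩ := hbint β v hw hv0
        have hpq : p + q = n := by exact_mod_cast hn
        simp only [LinearMap.add_apply (c + c'), LinearMap.sub_apply, LinearMap.smul_apply,
          Module.End.mul_apply]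
        obtain ⟨x1, x2⟩ := hp.posOdd hv
        obtain ⟨y1, y2⟩ := hq.posOdd hw
        by_cases hop : Odd p
        · have hoq : ¬ Odd q := by
            rw [← hpq, Int.odd_add] at ho
            rw [Int.not_odd_iff_even]
            exact ho.1 hop
          rw [y2 hoq, x1 hop, map_zero, smul_zero, add_zero, sub_zero]
        · have hoq : Odd q := by
            rw [← hpq, Int.odd_add] at ho
            by_contra hcon
            rw [Int.not_odd_iff_even] at hcon
            exact hop (ho.2 hcon)
          rw [y1 hoq, x2 hop, smul_zero, zero_add, sub_zero]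
      · obtain ⟨p, rfl⟩ := haint α v hv hv0
        obtain ⟨q, rfl⟩ := hbint β v hw hv0
        have hpq : p + q = n := by exact_mod_cast hn
        simp only [LinearMap.add_apply (c + c'), LinearMap.sub_apply, LinearMap.smul_apply,
          Module.End.mul_apply]
        obtain ⟨x1, x2⟩ := hp.posOdd hv
        obtain ⟨y1, y2⟩ := hq.posOdd hw
        rw [← hpq, Int.odd_add] at ho
        by_cases hop : Odd p
        · have hoq : Odd q := by
            by_contra hcon
            rw [Int.not_odd_iff_even] at hcon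
            exact ho ⟨fun _ => hcon, fun _ => hop⟩
          rw [y1 hoq, x1 hop, two_smul, sub_self]
        · have hoq : ¬ Odd q := by
            intro hcon
            refine ho ⟨fun h => absurd h hop, fun h => ?_⟩
            exact absurd hcon (Int.not_odd_iff_even.2 h)
          rw [y2 hoq, x2 hop, map_zero, smul_zero, add_zero, sub_zero]
    obtain ⟨k, hk⟩ := D.trace_even S hgen hJ0 hp.mem hp.idem
    obtain ⟨l, hl⟩ := D.symm.trace_even S hgen hI0 hq.mem hq.idem
    have hcd : (c * d) * (c * d) = c * d := by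
      have e1 : (c * d) * (c * d) = c * (d * c) * d := by noncomm_ring
      have e2 : c * (c * d) * d = (c * c) * (d * d) := by noncomm_ring
      rw [e1, ← T.comm_alg hp.mem hq.mem, e2, hp.idem, hq.idem]
    have hr := trace_idem hcd
    set r := Module.finrank K (LinearMap.range (c * d)) with hrr
    have t1 := T.trace_mul hp.mem hq.mem
    have t2 := T.trace_mul ((alg I).add_mem hp.mem hp.mem') ((alg J).add_mem hq.mem hq.mem')
    rw [map_add, map_add, ← hp.tr, ← hq.tr] at t2
    have t3 : trace K V ((c + c') * (d + d')) = 4 * trace K V (c * d) := by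
      have h1 : (trace K V ((c + c') * (d + d')) - 4 * trace K V (c * d)) *
          (Module.finrank K V : K) = 0 := by
        linear_combination t2 - 4 * t1
      rcases mul_eq_zero.1 h1 with h2 | h2
      · exact sub_eq_zero.1 h2
      · exact absurd h2 hn
    rw [map_sub, map_add, map_add, map_add, map_smul, ← hp.tr, ← hq.tr, t3, hr, hk, hl,
      smul_eq_mul] at hE
    have h5 : ((4 * k + 4 * l : ℕ) : K) = ((Module.finrank K (oddPart (a + b)) + 8 * r : ℕ) : K) := by
      push_cast
      linear_combination hE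
    have h6 : 4 * k + 4 * l = Module.finrank K (oddPart (a + b)) + 8 * r := by exact_mod_cast h5
    omega
  · -- the half-odd case
    have h2α : ∃ n : ℤ, α₀ = n + 2⁻¹ := by
      obtain ⟨n, hn⟩ := hsum α₀ β₀ v₀ w₀ hv1 hv2 hw1 hw2
      obtain ⟨m, hm⟩ := hsum (-α₀) β₀ v₁ w₀ hv₁ hv₁0 hw1 hw2
      have h1 : 2 * α₀ = ((n - m : ℤ) : K) := by
        push_cast
        rw [← hn, ← hm]; ring
      rcases Int.even_or_odd (n - m) with he | ho
      · exfalso
        obtain ⟨k, hk⟩ := he
        apply hcase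
        refine ⟨k, ?_⟩
        rw [hk] at h1
        push_cast at h1
        have h3 : (2 : K) * (α₀ - k) = 0 := by linear_combination h1
        rcases mul_eq_zero.1 h3 with h4 | h4
        · norm_num at h4
        · exact sub_eq_zero.1 h4
      · obtain ⟨k, hk⟩ := ho
        refine ⟨k, ?_⟩
        rw [hk] at h1
        push_cast at h1
        have h3 : (2 : K) * (α₀ - (k + 2⁻¹)) = 0 := by
          have : (2 : K) * 2⁻¹ = 1 := by norm_num
          linear_combination h1 - this
        rcases mul_eq_zero.1 h3 with h4 | h4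
        · norm_num at h4
        · exact sub_eq_zero.1 h4
    obtain ⟨n₀, hn₀⟩ := h2α
    have hhalf : (2 : K)⁻¹ + 2⁻¹ = 1 := by norm_num
    have hbint : ∀ (β : K) (w : V), b w = β • w → w ≠ 0 → ∃ n : ℤ, β = n + 2⁻¹ := by
      intro β w hw hw0
      obtain ⟨n, hn⟩ := hsum α₀ β v₀ w hv1 hv2 hw hw0
      exact ⟨n - n₀ - 1, by push_cast; rw [← hn, hn₀]; linear_combination hhalf⟩
    have haint : ∀ (α : K) (v : V), a v = α • v → v ≠ 0 → ∃ n : ℤ, α = n + 2⁻¹ := by
      intro α v hv hv0
      obtain ⟨m, hm⟩ := hbint β₀ w₀ hw1 hw2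
      obtain ⟨n, hn⟩ := hsum α β₀ v w₀ hv hv0 hw1 hw2
      exact ⟨n - m - 1, by push_cast; rw [← hn, hm]; linear_combination hhalf⟩
    obtain ⟨c, c', hp⟩ := exists_projs S.nd haA da adja HalfEven
    obtain ⟨d, d', hq⟩ := exists_projs S.nd hbA db adjb HalfEven
    have hE : trace K V (c * d + c' * d') = (Module.finrank K (oddPart (a + b)) : K) := by
      refine trace_odd S hh hint da db hab (fun α β v hv hw hv0 n hn ho => ?_)
        (fun α β v hv hw hv0 n hn ho => ?_)
      · obtain ⟨p, rfl⟩ := haint α v hv hv0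
        obtain ⟨q, rfl⟩ := hbint β v hw hv0
        have hpq : p + q + 1 = n := by
          have : ((p + q + 1 : ℤ) : K) = n := by
            push_cast
            rw [← hn, ← hhalf]; ring
          exact_mod_cast this
        simp only [LinearMap.add_apply, Module.End.mul_apply]
        obtain ⟨x1, x2⟩ := hp.halfEven hv
        obtain ⟨y1, y2⟩ := hq.halfEven hw
        have hpq' : Even (p + q) := by
          rw [← hpq] at ho
          obtain ⟨k, hk⟩ := ho
          exact ⟨k, by omega⟩
        rw [Int.even_add] at hpq'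
        by_cases hop : Even p
        · rw [(y1 (hpq'.1 hop)).1, (x1 hop).1, (y1 (hpq'.1 hop)).2, map_zero, add_zero]
        · have hoq : ¬ Even q := fun h => hop (hpq'.2 h)
          rw [(y2 hoq).1, (y2 hoq).2, (x2 hop).2, map_zero, zero_add]
      · obtain ⟨p, rfl⟩ := haint α v hv hv0
        obtain ⟨q, rfl⟩ := hbint β v hw hv0
        have hpq : p + q + 1 = n := by
          have : ((p + q + 1 : ℤ) : K) = n := by
            push_cast
            rw [← hn, ← hhalf]; ring
          exact_mod_cast this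
        simp only [LinearMap.add_apply, Module.End.mul_apply]
        obtain ⟨x1, x2⟩ := hp.halfEven hv
        obtain ⟨y1, y2⟩ := hq.halfEven hw
        have hpq' : ¬ Even (p + q) := by
          rintro ⟨k, hk⟩
          exact ho ⟨k, by omega⟩
        rw [Int.even_add] at hpq'
        by_cases hop : Even p
        · have hoq : ¬ Even q := fun h => hpq' ⟨fun _ => h, fun _ => hop⟩
          rw [(y2 hoq).1, (y2 hoq).2, (x1 hop).2, map_zero, zero_add]
        · have hoq : Even q := by
            by_contra h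
            exact hpq' ⟨fun h' => absurd h' hop, fun h' => absurd h' h⟩
          rw [(y1 hoq).1, (y1 hoq).2, (x2 hop).1, map_zero, zero_add]
    have hc1 : c + c' = 1 := by
      refine da.ext fun α v hv => ?_
      by_cases hv0 : v = 0
      · rw [hv0, map_zero, map_zero]
      obtain ⟨p, rfl⟩ := haint α v hv hv0
      obtain ⟨x1, x2⟩ := hp.halfEven hv
      rw [LinearMap.add_apply, Module.End.one_apply]
      by_cases hop : Even p
      · rw [(x1 hop).1, (x1 hop).2, add_zero]
      · rw [(x2 hop).1, (x2 hop).2, zero_add]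
    have hd1 : d + d' = 1 := by
      refine db.ext fun α v hv => ?_
      by_cases hv0 : v = 0
      · rw [hv0, map_zero, map_zero]
      obtain ⟨p, rfl⟩ := hbint α v hv hv0
      obtain ⟨x1, x2⟩ := hq.halfEven hv
      rw [LinearMap.add_apply, Module.End.one_apply]
      by_cases hop : Even p
      · rw [(x1 hop).1, (x1 hop).2, add_zero]
      · rw [(x2 hop).1, (x2 hop).2, zero_add]
    have tc : 2 * trace K V c = (Module.finrank K V : K) := by
      rw [← trace_one', ← hc1, map_add, ← hp.tr]; ring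
    have td : 2 * trace K V d = (Module.finrank K V : K) := by
      rw [← trace_one', ← hd1, map_add, ← hq.tr]; ring
    have t1 := T.trace_mul hp.mem hq.mem
    have t2 := T.trace_mul hp.mem' hq.mem'
    rw [← hp.tr, ← hq.tr] at t2
    rw [map_add] at hE
    have h5 : (2 * (Module.finrank K (oddPart (a + b)) : K) - (Module.finrank K V : K)) *
        (Module.finrank K V : K) = 0 := by
      rw [← hE]
      linear_combination 2 * t1 + 2 * t2 + (2 * trace K V d) * tc + (Module.finrank K V : K) * td
    rcases mul_eq_zero.1 h5 with h6 | h6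
    · have h7 : ((2 * Module.finrank K (oddPart (a + b)) : ℕ) : K) = (Module.finrank K V : ℕ) := by
        push_cast
        exact sub_eq_zero.1 h6
      exact_mod_cast h7
    · exact absurd h6 hn

end Pool.Agent.Helper16.NP
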